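import Mathlib
import Pool.Agent.H520R2.NMDefs

/-!
# Circuit reductions from clique problems to satisfiability of short formulas: definitions
-/

namespace Pool.Agent.H679R2.M1

open Pool.Agent.H520R2.NM

/-- The possible clauses with at most `d` literals over `v` variables. The pair `(i, true)` is the
literal `X_i`, the pair `(i, false)` is the literal `¬ X_i`. -/
abbrev Clause (v d : ℕ) : Type := {c : Finset (Fin v × Bool) // c.card ≤ d}

/-- A formula in `Γ_{1,d}` over `v` variables, given by its set of clauses, that is by one bit for
each possible clause: the formula consists of the clauses `c` with `φ c = true`. It is satisfiable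
if some assignment makes a literal of each of its clauses true. -/
def Sat {v d : ℕ} (φ : Clause v d → Bool) : Prop :=
  ∃ a : Fin v → Bool, ∀ c : Clause v d, φ c = true → ∃ l ∈ c.1, a l.1 = l.2

/-- A truth-table reduction, computed by a circuit, from a problem on graphs with vertex set
`Fin n` to the satisfiability problem for formulas in `Γ_{1,d}` over `v` variables. The input of
the circuit `C` is the graph, given by its edge indicators. The circuit produces, at the wires
`out i c`, the bits of `q` formulas, and the answer is an arbitrary function `ev` of the `q` answers
to the questions whether these formulas are satisfiable. A many-one reduction is the case in which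
`q = 1` and `ev` is the identity. -/
structure Reduction (n v d q N : ℕ) where
  /-- the circuit -/
  C : Circuit (Sym2 (Fin n)) N
  /-- the wire that carries the bit of the clause `c` in the `i`-th formula -/
  out : Fin q → Clause v d → Wire (Sym2 (Fin n)) N
  /-- the evaluation of the `q` answers -/
  ev : (Fin q → Bool) → Bool

open Classical in
/-- The answer of the reduction on the graph `x`. -/
noncomputable def Reduction.answer {n v d q N : ℕ} (R : Reduction n v d q N)
    (x : Sym2 (Fin n) → Bool) : Bool :=
  R.ev fun i => decide (Sat fun c => (R.out i c).eval x (R.C.vals x))

/-- A graph satisfies the promise if it has a clique with `s` vertices or no clique with `k`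
vertices. (Only the bits of pairs of different vertices count.) -/
def Promise {n : ℕ} (s k : ℕ) (x : Sym2 (Fin n) → Bool) : Prop :=
  ¬ (SimpleGraph.fromEdgeSet {e | x e = true}).CliqueFree s ∨
    (SimpleGraph.fromEdgeSet {e | x e = true}).CliqueFree k

/-- The answer `b` is right for the graph `x`: it is `true` if there is a clique with `s` vertices,
it is `false` if there is no clique with `k` vertices. -/
def Right {n : ℕ} (s k : ℕ) (x : Sym2 (Fin n) → Bool) (b : Bool) : Prop :=
  (¬ (SimpleGraph.fromEdgeSet {e | x e = true}).CliqueFree s → b = true) ∧
    ((SimpleGraph.fromEdgeSet {e | x e = true}).CliqueFree k → b = false)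

end Pool.Agent.H679R2.M1
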