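import Pool.Agent.H679R2.M1.Defs
import Pool.Agent.H559R10.Gap

/-!
# No reduction from clique problems to short formulas by circuits with few non-monotone gates
-/

namespace Pool.Agent.H679R2.M1

open Pool.Agent.H520R2.NM Filter Finset

theorem card_clause (v d : ℕ) : Fintype.card (Clause v d) ≤ (2 * v + 1) ^ d := by
  classical
  let F : (Fin d → Option (Fin v × Bool)) → Clause v d := fun f =>
    ⟨(univ.image f).eraseNone, by
      calc (univ.image f).eraseNone.card ≤ (univ.image f).card := by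
            exact Finset.card_eraseNone_le _
        _ ≤ (univ : Finset (Fin d)).card := Finset.card_image_le
        _ = d := by simp⟩
  have hF : Function.Surjective F := by
    rintro ⟨c, hc⟩
    have hle : c.card ≤ d := hc
    let e := c.equivFin
    refine ⟨fun i => if h : i.val < c.card then some (e.symm ⟨i.val, h⟩).1 else none, ?_⟩
    apply Subtype.ext
    ext l
    simp only [F, Finset.mem_eraseNone, mem_image, mem_univ, true_and]
    constructor
    · rintro ⟨i, hi⟩
      split_ifs at hi with h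
      have := Option.some.inj hi
      rw [← this]
      exact (e.symm ⟨i.val, h⟩).2
    · intro hl
      refine ⟨⟨(e ⟨l, hl⟩).val, lt_of_lt_of_le (e ⟨l, hl⟩).2 hle⟩, ?_⟩
      have h : (e ⟨l, hl⟩).val < c.card := (e ⟨l, hl⟩).2
      rw [dif_pos h]
      have h2 : e.symm ⟨(e ⟨l, hl⟩).val, h⟩ = ⟨l, hl⟩ := by
        have : (⟨(e ⟨l, hl⟩).val, h⟩ : Fin c.card) = e ⟨l, hl⟩ := rfl
        rw [this, Equiv.symm_apply_apply]
      rw [h2]
  calc Fintype.card (Clause v d) ≤ Fintype.card (Fin d → Option (Fin v × Bool)) :=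
        Fintype.card_le_of_surjective F hF
    _ = (2 * v + 1) ^ d := by
        rw [Fintype.card_fun, Fintype.card_option, Fintype.card_prod, Fintype.card_fin,
          Fintype.card_bool, Fintype.card_fin, Nat.mul_comm v 2]

variable {n v d q N : ℕ}

/-- The number of bits of the formulas. -/
abbrev bits (v d q : ℕ) : ℕ := Fintype.card (Fin q × Clause v d)

/-- The bits of the formulas as a function on `Fin (bits v d q)`. -/
noncomputable abbrev idx (v d q : ℕ) : Fin q × Clause v d ≃ Fin (bits v d q) :=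
  Fintype.equivFin _

open Classical in
/-- The reduction as a circuit with one more gate. -/
noncomputable def toCircuit (R : Reduction n v d q N) : Circuit (Sym2 (Fin n)) (N + 1) :=
  Circuit.any R.C (bits v d q) 1
    (fun b _ => R.ev fun i => decide (Sat fun c => b (idx v d q (i, c))))
    (fun j => R.out ((idx v d q).symm j).1 ((idx v d q).symm j).2)

/-- The output wire. -/
def last (n N : ℕ) : Wire (Sym2 (Fin n)) (N + 1) := .gate (Fin.natAdd N 0)

theorem eval_last (R : Reduction n v d q N) (x : Sym2 (Fin n) → Bool) :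
    (last n N).eval x ((toCircuit R).vals x) = R.answer x := by
  classical
  have h : (last n N).eval x ((toCircuit R).vals x) =
      Fin.append (R.C.vals x) (fun _ : Fin 1 => R.ev fun i => decide (Sat fun c =>
        (fun j => (R.out ((idx v d q).symm j).1 ((idx v d q).symm j).2).eval x (R.C.vals x))
          (idx v d q (i, c)))) (Fin.natAdd N 0) := rfl
  rw [h, Fin.append_right]
  unfold Reduction.answer
  simp only [Equiv.symm_apply_apply]

theorem size_toCircuit (R : Reduction n v d q N) : (toCircuit R).size = R.C.size := rfl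

theorem fanins_toCircuit (R : Reduction n v d q N) :
    (toCircuit R).fanins = bits v d q :: R.C.fanins := rfl

theorem bits_le (v d q : ℕ) : bits v d q ≤ q * (2 * v + 1) ^ d := by
  unfold bits
  rw [Fintype.card_prod, Fintype.card_fin]
  exact Nat.mul_le_mul_left _ (card_clause v d)

theorem bits_succ_le (v d q : ℕ) : bits v d q + 1 ≤ (q + 1) * (2 * v + 1) ^ d := by
  have h := bits_le v d q
  have h1 : 1 ≤ (2 * v + 1) ^ d := Nat.one_le_pow _ _ (by omega)
  nlinarith

/-- Logarithms are small. -/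
theorem log_small (G F c d : ℕ) {δ : ℝ} (hδ : 0 < δ) :
    ∀ᶠ n : ℕ in atTop, (((2 * (G * (Nat.log 2 (F * n ^ c) + 1)) + 1) ^ d : ℕ) : ℝ) ≤
      (n : ℝ) ^ δ := by
  -- it is enough to bound the base by `n ^ ε` with `ε * d ≤ δ`
  set ε : ℝ := δ / (d + 1) with hε
  have hd : (0 : ℝ) < d + 1 := by positivity
  have hεp : 0 < ε := by positivity
  have hlog : Tendsto (fun n : ℕ => Real.log (n : ℝ) / (n : ℝ) ^ ε) atTop (nhds 0) := by
    have h := (isLittleO_log_rpow_atTop hεp).tendsto_div_nhds_zero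
    exact h.comp tendsto_natCast_atTop_atTop
  have hcst : Tendsto (fun n : ℕ => (1 : ℝ) / (n : ℝ) ^ ε) atTop (nhds 0) := by
    have h := (tendsto_rpow_atTop hεp).inv_tendsto_atTop
    have h2 := h.comp tendsto_natCast_atTop_atTop
    refine h2.congr fun n => ?_
    simp
  set A : ℝ := 2 * G * c / Real.log 2 with hA
  set B : ℝ := 2 * G * (Real.log F / Real.log 2 + 1) + 1 with hB
  have hsum : Tendsto (fun n : ℕ => A * (Real.log (n : ℝ) / (n : ℝ) ^ ε) +
      B * (1 / (n : ℝ) ^ ε)) atTop (nhds 0) := by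
    have := (hlog.const_mul A).add (hcst.const_mul B)
    simpa using this
  have hev := hsum.eventually (gt_mem_nhds (show (0 : ℝ) < 1 by norm_num))
  filter_upwards [hev, eventually_ge_atTop 1] with n hn hn1
  have hn0 : (0 : ℝ) < n := by exact_mod_cast hn1
  have hpos : 0 < (n : ℝ) ^ ε := Real.rpow_pos_of_pos hn0 _
  have hl2 : 0 < Real.log 2 := Real.log_pos (by norm_num)
  have hbase : ((2 * (G * (Nat.log 2 (F * n ^ c) + 1)) + 1 : ℕ) : ℝ) ≤ (n : ℝ) ^ ε := by
    have hNat : (Nat.log 2 (F * n ^ c) : ℝ) ≤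
        (Real.log F + c * Real.log n) / Real.log 2 := by
      rcases Nat.eq_zero_or_pos F with hF | hF
      · subst hF
        simp only [Nat.zero_mul, Nat.log_zero_right, Nat.cast_zero, Real.log_zero, zero_add]
        have : 0 ≤ Real.log (n : ℝ) := Real.log_nonneg (by exact_mod_cast hn1)
        positivity
      · have hM : F * n ^ c ≠ 0 := by positivity
        have h1 : (2 : ℝ) ^ (Nat.log 2 (F * n ^ c)) ≤ ((F * n ^ c : ℕ) : ℝ) := by
          exact_mod_cast Nat.pow_log_le_self 2 hM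
        have h2 : Real.log ((2 : ℝ) ^ (Nat.log 2 (F * n ^ c))) ≤
            Real.log ((F * n ^ c : ℕ) : ℝ) := Real.log_le_log (by positivity) h1
        rw [Real.log_pow] at h2
        have h3 : Real.log ((F * n ^ c : ℕ) : ℝ) = Real.log F + c * Real.log n := by
          push_cast
          rw [Real.log_mul (by positivity) (by positivity), Real.log_pow]
        rw [h3] at h2
        rw [le_div_iff₀ hl2]
        exact h2
    have hkey : ((2 * (G * (Nat.log 2 (F * n ^ c) + 1)) + 1 : ℕ) : ℝ) ≤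
        A * Real.log n + B := by
      push_cast
      have hG : (0 : ℝ) ≤ G := by positivity
      have : (2 : ℝ) * (G * ((Nat.log 2 (F * n ^ c) : ℝ) + 1)) + 1 ≤
          2 * (G * ((Real.log F + c * Real.log n) / Real.log 2 + 1)) + 1 := by gcongr
      refine this.trans (le_of_eq ?_)
      rw [hA, hB]
      field_simp
      ring
    refine hkey.trans ?_
    have h4 : A * (Real.log (n : ℝ) / (n : ℝ) ^ ε) + B * (1 / (n : ℝ) ^ ε) =
        (A * Real.log n + B) / (n : ℝ) ^ ε := by ring
    rw [h4, div_lt_one hpos] at hn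
    exact hn.le
  have hn1' : (1 : ℝ) ≤ (n : ℝ) := by exact_mod_cast hn1
  calc (((2 * (G * (Nat.log 2 (F * n ^ c) + 1)) + 1) ^ d : ℕ) : ℝ)
      = ((2 * (G * (Nat.log 2 (F * n ^ c) + 1)) + 1 : ℕ) : ℝ) ^ d := by push_cast; rfl
    _ ≤ ((n : ℝ) ^ ε) ^ d := by gcongr
    _ = (n : ℝ) ^ (ε * d) := by rw [← Real.rpow_natCast, ← Real.rpow_mul hn0.le]
    _ ≤ (n : ℝ) ^ δ := by
        apply Real.rpow_le_rpow_of_exponent_le hn1'
        rw [hε, div_mul_eq_mul_div, div_le_iff₀ hd]
        nlinarith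

/-- The main statement. -/
theorem no_reduction (f g s : ℕ → ℕ) (hs : ∀ k, k ≤ s k) (c d : ℕ) (γ : ℝ) (hγ0 : 0 ≤ γ)
    (hγ : γ < 2) :
    ∀ᶠ k : ℕ in atTop, ∃ α : ℝ, 0 < α ∧ ∀ᶠ n : ℕ in atTop,
      (∃ (Λ : Type) (_ : Fintype Λ) (_ : Nonempty Λ) (x : Λ → Sym2 (Fin n) → Bool),
        (∀ l, Promise (s k) k (x l)) ∧
        ∀ (v q N : ℕ) (R : Reduction n v d q N),
          v ≤ g k * (Nat.log 2 (f k * n ^ c) + 1) →
          (((q + 1) * (R.C.fanins.map (· + 1)).prod : ℕ) : ℝ) ≤ (n : ℝ) ^ γ →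
          R.C.size + R.C.fanins.sum ≤ f k * n ^ c →
          (Set.ncard {l | Right (s k) k (x l) (R.answer (x l))} : ℝ) <
            (1 / 2 + (n : ℝ) ^ (-α)) * Fintype.card Λ) ∧
      ∀ (Ω : Type) [Fintype Ω] (w : Ω → ℝ), (∀ r, 0 ≤ w r) → ∑ r, w r = 1 →
        ∀ (v q N : Ω → ℕ) (R : ∀ r, Reduction n (v r) d (q r) (N r)),
          (∀ r, v r ≤ g k * (Nat.log 2 (f k * n ^ c) + 1)) →
          (∀ r, (((q r + 1) * ((R r).C.fanins.map (· + 1)).prod : ℕ) : ℝ) ≤ (n : ℝ) ^ γ) →
          (∀ r, (R r).C.size + (R r).C.fanins.sum ≤ f k * n ^ c) →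
          ∃ x : Sym2 (Fin n) → Bool, Promise (s k) k x ∧
            ∀ Q : Finset Ω, (∀ r ∈ Q, Right (s k) k x ((R r).answer x)) →
              ∑ r ∈ Q, w r < 1 / 2 + (n : ℝ) ^ (-α) := by
  classical
  set δ : ℝ := (2 - γ) / 2 with hδ
  have hδp : 0 < δ := by rw [hδ]; linarith
  have hγ' : γ + δ < 2 := by rw [hδ]; linarith
  have hmain := H559R10.fpt_gap (fun k => f k + 1) s hs (c + 2) (γ + δ) (by linarith) hγ'
  filter_upwards [hmain] with k hk
  obtain ⟨α, hα, hn⟩ := hk
  refine ⟨α, hα, ?_⟩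
  filter_upwards [hn, log_small (g k) (f k) c d hδp, eventually_ge_atTop 1] with n hn hlog hn1
  have hn0 : (0 : ℝ) < n := by exact_mod_cast hn1
  have hn1' : (1 : ℝ) ≤ (n : ℝ) := by exact_mod_cast hn1
  -- the circuit of a reduction satisfies the hypotheses
  have key : ∀ (v q N : ℕ) (R : Reduction n v d q N),
      v ≤ g k * (Nat.log 2 (f k * n ^ c) + 1) →
      (((q + 1) * (R.C.fanins.map (· + 1)).prod : ℕ) : ℝ) ≤ (n : ℝ) ^ γ →
      R.C.size + R.C.fanins.sum ≤ f k * n ^ c →
      ((((toCircuit R).fanins.map (· + 1)).prod : ℕ) : ℝ) ≤ (n : ℝ) ^ (γ + δ) ∧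
        (toCircuit R).size + (toCircuit R).fanins.sum ≤ (f k + 1) * n ^ (c + 2) := by
    intro v q N R hv hq hsz
    have hprod : ((((toCircuit R).fanins.map (· + 1)).prod : ℕ) : ℝ) ≤ (n : ℝ) ^ (γ + δ) := by
      rw [fanins_toCircuit, List.map_cons, List.prod_cons]
      have h1 : (bits v d q + 1) * (R.C.fanins.map (· + 1)).prod ≤
          ((q + 1) * (R.C.fanins.map (· + 1)).prod) *
            (2 * (g k * (Nat.log 2 (f k * n ^ c) + 1)) + 1) ^ d := by
        calc (bits v d q + 1) * (R.C.fanins.map (· + 1)).prod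
            ≤ ((q + 1) * (2 * v + 1) ^ d) * (R.C.fanins.map (· + 1)).prod :=
              Nat.mul_le_mul_right _ (bits_succ_le v d q)
          _ = ((q + 1) * (R.C.fanins.map (· + 1)).prod) * (2 * v + 1) ^ d := by ring
          _ ≤ _ := by gcongr
      have h2 : (((bits v d q + 1) * (R.C.fanins.map (· + 1)).prod : ℕ) : ℝ) ≤
          (n : ℝ) ^ γ * (n : ℝ) ^ δ := by
        calc (((bits v d q + 1) * (R.C.fanins.map (· + 1)).prod : ℕ) : ℝ)
            ≤ ((((q + 1) * (R.C.fanins.map (· + 1)).prod) *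
              (2 * (g k * (Nat.log 2 (f k * n ^ c) + 1)) + 1) ^ d : ℕ) : ℝ) := by
              exact_mod_cast h1
          _ = (((q + 1) * (R.C.fanins.map (· + 1)).prod : ℕ) : ℝ) *
              (((2 * (g k * (Nat.log 2 (f k * n ^ c) + 1)) + 1) ^ d : ℕ) : ℝ) := by
              push_cast; ring
          _ ≤ _ := by gcongr
      rw [Real.rpow_add hn0]
      exact h2
    refine ⟨hprod, ?_⟩
    rw [size_toCircuit, fanins_toCircuit, List.sum_cons]
    -- the number of bits is at most `n ^ 2`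
    have hb : bits v d q ≤ n ^ 2 := by
      have h1 : 1 ≤ (R.C.fanins.map (· + 1)).prod := by
        apply List.one_le_prod
        intro a ha
        obtain ⟨b, _, rfl⟩ := List.mem_map.1 ha
        omega
      have h2 : ((bits v d q : ℕ) : ℝ) ≤ (n : ℝ) ^ (γ + δ) := by
        refine le_trans ?_ hprod
        rw [fanins_toCircuit, List.map_cons, List.prod_cons]
        have : bits v d q ≤ (bits v d q + 1) * (R.C.fanins.map (· + 1)).prod := by nlinarith
        exact_mod_cast this
      have h3 : (n : ℝ) ^ (γ + δ) ≤ (n : ℝ) ^ (2 : ℝ) :=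
        Real.rpow_le_rpow_of_exponent_le hn1' hγ'.le
      have h4 : ((bits v d q : ℕ) : ℝ) ≤ ((n ^ 2 : ℕ) : ℝ) := by
        refine h2.trans (h3.trans (le_of_eq ?_))
        push_cast
        exact Real.rpow_two _
      exact_mod_cast h4
    have h5 : n ^ c ≤ n ^ (c + 2) := Nat.pow_le_pow_right hn1 (by omega)
    have h6 : n ^ 2 ≤ n ^ (c + 2) := Nat.pow_le_pow_right hn1 (by omega)
    have h7 : f k * n ^ c ≤ f k * n ^ (c + 2) := Nat.mul_le_mul_left _ h5
    calc R.C.size + (bits v d q + R.C.fanins.sum)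
        = (R.C.size + R.C.fanins.sum) + bits v d q := by ring
      _ ≤ f k * n ^ c + n ^ 2 := Nat.add_le_add hsz hb
      _ ≤ f k * n ^ (c + 2) + n ^ (c + 2) := Nat.add_le_add h7 h6
      _ = (f k + 1) * n ^ (c + 2) := by ring
  obtain ⟨⟨Λ, hΛ1, hΛ2, x, hx, hx2⟩, hrand⟩ := hn
  refine ⟨⟨Λ, hΛ1, hΛ2, x, hx, ?_⟩, ?_⟩
  · intro v q N R hv hq hsz
    obtain ⟨h1, h2⟩ := key v q N R hv hq hsz
    have := hx2 (N + 1) (toCircuit R) (last n N) h1 h2
    rw [Set.ncard_eq_toFinset_card']
    convert this using 3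
    ext l
    simp only [Set.mem_toFinset, Set.mem_ofPred_eq, mem_filter, mem_univ, true_and, eval_last]
    rfl
  · intro Ω _ w hw hw1 v q N R hv hq hsz
    obtain ⟨x, hx, hx2⟩ := hrand Ω w hw hw1 (fun r => N r + 1) (fun r => toCircuit (R r))
      (fun r => last n (N r)) (fun r => (key _ _ _ (R r) (hv r) (hq r) (hsz r)).1)
      (fun r => (key _ _ _ (R r) (hv r) (hq r) (hsz r)).2)
    refine ⟨x, hx, fun Q hQ => lt_of_le_of_lt ?_ hx2⟩
    apply Finset.sum_le_sum_of_subset_of_nonneg
    · intro r hr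
      simp only [mem_filter, mem_univ, true_and, eval_last]
      exact hQ r hr
    · intro r _ _
      exact hw r

end Pool.Agent.H679R2.M1
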